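import Pool.Graph.R_seed8.TH773.PSet.Rep

/-!
# The complete Boolean algebra of the regular sets of conditions
-/

set_option autoImplicit false

namespace Pool.Agent.H625.Tr

open Pool.Agent.TH773.PSet (Reg Down)

/-- regular sets of conditions -/
structure RO (P : Type) [Preorder P] where
  s : Set P
  reg : Reg s

variable {P : Type} [Preorder P]

instance : Membership P (RO P) := ⟨fun a p => p ∈ a.s⟩

theorem RO.mem_def {a : RO P} {p : P} : p ∈ a ↔ p ∈ a.s := Iff.rfl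

theorem RO.ext' {a b : RO P} (h : ∀ p, p ∈ a ↔ p ∈ b) : a = b := by
  obtain ⟨a, _⟩ := a
  obtain ⟨b, _⟩ := b
  have : a = b := Set.ext h
  subst this
  rfl

theorem RO.down (a : RO P) {p q : P} (hq : q ≤ p) (h : p ∈ a) : q ∈ a := a.reg.1 p h q hq

theorem RO.dense (a : RO P) {p : P} (h : ∀ q ≤ p, ∃ r ≤ q, r ∈ a) : p ∈ a := a.reg.2 p h

instance : PartialOrder (RO P) where
  le a b := ∀ p, p ∈ a → p ∈ b
  le_refl _ _ h := h
  le_trans _ _ _ h h' p hp := h' p (h p hp)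
  le_antisymm _ _ h h' := RO.ext' fun p => ⟨h p, h' p⟩

theorem RO.le_def {a b : RO P} : a ≤ b ↔ ∀ p, p ∈ a → p ∈ b := Iff.rfl

/-- the union, regularized -/
def rsup (S : Set P) (_hS : Down S) : RO P where
  s := {p | ∀ q ≤ p, ∃ r ≤ q, r ∈ S}
  reg := by
    refine ⟨fun p hp q hq r hr => hp r (hr.trans hq), fun p hp q hq => ?_⟩
    obtain ⟨r, hr, h⟩ := hp q hq
    obtain ⟨t, ht, h'⟩ := h r le_rfl
    exact ⟨t, ht.trans hr, h'⟩

instance : CompleteBooleanAlgebra (RO P) where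
  sup a b := rsup {p | p ∈ a ∨ p ∈ b} (by
    rintro p (h | h) q hq
    · exact Or.inl (a.down hq h)
    · exact Or.inr (b.down hq h))
  le_sup_left a b p hp q hq := ⟨q, le_rfl, Or.inl (a.down hq hp)⟩
  le_sup_right a b p hp q hq := ⟨q, le_rfl, Or.inr (b.down hq hp)⟩
  sup_le a b c hac hbc p hp := by
    refine c.dense fun q hq => ?_
    obtain ⟨r, hr, h | h⟩ := hp q hq
    · exact ⟨r, hr, hac r h⟩
    · exact ⟨r, hr, hbc r h⟩
  inf a b := ⟨{p | p ∈ a ∧ p ∈ b}, fun p hp q hq => ⟨a.down hq hp.1, b.down hq hp.2⟩,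
    fun p hp => ⟨a.dense fun q hq => (hp q hq).imp fun r hr => ⟨hr.1, hr.2.1⟩,
      b.dense fun q hq => (hp q hq).imp fun r hr => ⟨hr.1, hr.2.2⟩⟩⟩
  inf_le_left a b p hp := hp.1
  inf_le_right a b p hp := hp.2
  le_inf a b c hab hac p hp := ⟨hab p hp, hac p hp⟩
  sSup S := rsup {p | ∃ a ∈ S, p ∈ a} (by
    rintro p ⟨a, ha, h⟩ q hq
    exact ⟨a, ha, a.down hq h⟩)
  isLUB_sSup S := by
    refine ⟨fun a ha p hp q hq => ⟨q, le_rfl, a, ha, a.down hq hp⟩, fun b hb p hp => ?_⟩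
    refine b.dense fun q hq => ?_
    obtain ⟨r, hr, a, ha, h⟩ := hp q hq
    exact ⟨r, hr, hb ha r h⟩
  sInf S := ⟨{p | ∀ a ∈ S, p ∈ a}, fun p hp q hq a ha => a.down hq (hp a ha),
    fun p hp a ha => a.dense fun q hq => (hp q hq).imp fun r hr => ⟨hr.1, hr.2 a ha⟩⟩
  isGLB_sInf S := by
    refine ⟨fun a ha p hp => hp a ha, fun b hb p hp a ha => hb ha p hp⟩
  top := ⟨Set.univ, fun _ _ _ _ => trivial, fun _ _ => trivial⟩
  le_top a p hp := trivial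
  bot := ⟨∅, fun _ hp => absurd hp (Set.notMem_empty _), fun p hp => by
    obtain ⟨r, _, hr⟩ := hp p le_rfl
    exact absurd hr (Set.notMem_empty _)⟩
  bot_le a p hp := absurd hp (Set.notMem_empty _)
  compl a := ⟨{p | ∀ q ≤ p, q ∉ a}, fun p hp q hq r hr => hp r (hr.trans hq),
    fun p hp q hq hqa => by
      obtain ⟨r, hr, h⟩ := hp q hq
      exact h r le_rfl (a.down hr hqa)⟩
  inf_compl_le_bot a p hp := (hp.2 p le_rfl hp.1).elim
  top_le_sup_compl a p _ q hq := by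
    by_cases h : ∃ r ≤ q, r ∈ a
    · obtain ⟨r, hr, hra⟩ := h
      exact ⟨r, hr, Or.inl hra⟩
    · push Not at h
      exact ⟨q, le_rfl, Or.inr h⟩
  le_sup_inf a b c p hp q hq := by
    obtain ⟨r, hr, h | h⟩ := hp.1 q hq
    · exact ⟨r, hr, Or.inl h⟩
    · obtain ⟨r', hr', h' | h'⟩ := hp.2 r (hr.trans hq)
      · exact ⟨r', hr'.trans hr, Or.inl h'⟩
      · exact ⟨r', hr'.trans hr, Or.inr ⟨b.down hr' h, h'⟩⟩

theorem mem_inf {a b : RO P} {p : P} : p ∈ a ⊓ b ↔ p ∈ a ∧ p ∈ b := Iff.rfl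

theorem mem_sup {a b : RO P} {p : P} : p ∈ a ⊔ b ↔ ∀ q ≤ p, ∃ r ≤ q, r ∈ a ∨ r ∈ b := Iff.rfl

theorem mem_compl {a : RO P} {p : P} : p ∈ aᶜ ↔ ∀ q ≤ p, q ∉ a := Iff.rfl

theorem mem_top {p : P} : p ∈ (⊤ : RO P) := trivial

theorem notMem_bot {p : P} : p ∉ (⊥ : RO P) := fun h => h

theorem mem_iInf {ι : Sort*} {a : ι → RO P} {p : P} : p ∈ (⨅ i, a i) ↔ ∀ i, p ∈ a i := by
  constructor
  · intro h i
    exact (iInf_le a i) p h
  · intro h b hb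
    obtain ⟨i, rfl⟩ := hb
    exact h i

theorem mem_iSup {ι : Sort*} {a : ι → RO P} {p : P} :
    p ∈ (⨆ i, a i) ↔ ∀ q ≤ p, ∃ r ≤ q, ∃ i, r ∈ a i := by
  constructor
  · intro h q hq
    obtain ⟨r, hr, b, ⟨i, rfl⟩, h'⟩ := h q hq
    exact ⟨r, hr, i, h'⟩
  · intro h q hq
    obtain ⟨r, hr, i, h'⟩ := h q hq
    exact ⟨r, hr, _, ⟨i, rfl⟩, h'⟩

theorem ne_bot_iff {a : RO P} : a ≠ ⊥ ↔ ∃ p, p ∈ a := by
  constructor
  · intro h
    by_contra hcon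
    push Not at hcon
    exact h (RO.ext' fun p => ⟨fun hp => absurd hp (hcon p), fun hp => absurd hp notMem_bot⟩)
  · rintro ⟨p, hp⟩ rfl
    exact notMem_bot hp

theorem exists_mem_of_ne {a : RO P} (h : a ≠ ⊥) : ∃ p, p ∈ a := ne_bot_iff.1 h

/-- the regular set generated by a condition: everything all of whose extensions are compatible
with it -/
def pr (p : P) : RO P where
  s := {q | ∀ r ≤ q, ∃ t ≤ r, t ≤ p}
  reg := by
    refine ⟨fun q hq r hr t ht => hq t (ht.trans hr), fun q hq r hr => ?_⟩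
    obtain ⟨t, ht, h⟩ := hq r hr
    obtain ⟨w, hw, h'⟩ := h t le_rfl
    exact ⟨w, hw.trans ht, h'⟩

theorem mem_pr {p q : P} : q ∈ pr p ↔ ∀ r ≤ q, ∃ t ≤ r, t ≤ p := Iff.rfl

theorem self_mem_pr (p : P) : p ∈ pr p := fun r hr => ⟨r, le_rfl, hr⟩

theorem pr_ne_bot (p : P) : pr p ≠ ⊥ := ne_bot_iff.2 ⟨p, self_mem_pr p⟩

theorem pr_le {p : P} {a : RO P} : pr p ≤ a ↔ p ∈ a := by
  constructor
  · intro h
    exact h p (self_mem_pr p)
  · intro h q hq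
    refine a.dense fun r hr => ?_
    obtain ⟨t, ht, h'⟩ := hq r hr
    exact ⟨t, ht, a.down h' h⟩

/-- density of the conditions -/
theorem exists_pr_le {a : RO P} (h : a ≠ ⊥) : ∃ p, pr p ≤ a := by
  obtain ⟨p, hp⟩ := exists_mem_of_ne h
  exact ⟨p, pr_le.2 hp⟩

theorem pr_inf_ne {p : P} {a : RO P} : pr p ⊓ a ≠ ⊥ ↔ ∃ q ≤ p, q ∈ a := by
  constructor
  · intro h
    obtain ⟨q, hq, hqa⟩ := exists_mem_of_ne h
    obtain ⟨r, hr, hrp⟩ := hq q le_rfl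
    exact ⟨r, hrp, a.down hr hqa⟩
  · rintro ⟨q, hq, hqa⟩
    exact ne_bot_iff.2 ⟨q, (pr p).down hq (self_mem_pr p), hqa⟩

/-- the countable chain condition -/
theorem ccc_RO (hP : ∀ A : Set P, (∀ p ∈ A, ∀ q ∈ A, p ≠ q → ¬ ∃ r, r ≤ p ∧ r ≤ q) → A.Countable)
    (D : Set (RO P)) (hD : ∀ d ∈ D, d ≠ ⊥) (hdis : ∀ d ∈ D, ∀ e ∈ D, d ≠ e → d ⊓ e = ⊥) :
    D.Countable := by
  have h1 : ∀ d : D, ∃ p, p ∈ d.1 := fun d => exists_mem_of_ne (hD d.1 d.2)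
  choose f hf using h1
  have hne : ∀ d e : D, d ≠ e → ¬ ∃ r, r ≤ f d ∧ r ≤ f e := by
    rintro d e hde ⟨r, h1, h2⟩
    have h3 := hdis d.1 d.2 e.1 e.2 fun h => hde (Subtype.ext h)
    have h4 : r ∈ d.1 ⊓ e.1 := ⟨d.1.down h1 (hf d), e.1.down h2 (hf e)⟩
    rw [h3] at h4
    exact notMem_bot h4
  have hinj : Function.Injective f := by
    intro d e h
    by_contra hde
    exact hne d e hde ⟨f d, le_rfl, h.le⟩
  have h2 : (Set.range f).Countable := by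
    apply hP
    rintro _ ⟨d, rfl⟩ _ ⟨e, rfl⟩ h
    exact hne d e fun h' => h (by rw [h'])
  have h3 : Countable D := by
    have := h2.to_subtype
    exact (Set.injective_codRestrict (s := Set.range f) (fun d => ⟨d, rfl⟩)).2 hinj |>.countable
  exact h3

end Pool.Agent.H625.Tr
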