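import Pool.Agent.H625.FMA.Meas
import Pool.Agent.H625.BCov.Dom
import Pool.Agent.H625.Tr.RO
import Pool.Graph.R_seed8.W684.FM.Ambient

/-!
# Forced Martin's axiom gives pseudo-intersections of Boolean valued sets
-/

set_option autoImplicit false

namespace Pool.Agent.H625.Tr

open Cardinal Pool.Agent.Helper669.Forcing
open Pool.Agent.W684.FM (PCCC IsPreN CCCN IsDenseN IsFilterN CompatN UnbN MartinHolds Om1
  exists_bound exists_gt_om1)
open Pool.Agent.H625.BCov (Nm Inf AS PHyp mix ne_bot_mono inf_iSup_ne Fo)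

variable {P : Type} [Preorder P]

/-- a set of conditions closed downwards and under density is equal to the set of the conditions
forcing that the generic filter meets it -/
theorem meets_RO (a : RO P) : meets a.s = a.s := by
  ext p
  constructor
  · intro h
    refine a.dense fun q hq => ?_
    obtain ⟨r, hr, s, hs, hrs⟩ := h q hq
    exact ⟨r, hr, a.down hrs hs⟩
  · intro h q hq
    exact ⟨q, le_rfl, q, a.down hq h, le_rfl⟩

theorem reg_meets (N : Set P) : Pool.Agent.TH773.PSet.Reg (meets N) :=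
  Pool.Agent.TH773.PSet.reg_meets N

/-- the value of `the generic filter meets N` -/
def mt (N : Set P) : RO P := ⟨meets N, reg_meets N⟩

theorem mem_mt {N : Set P} {p : P} : p ∈ mt N ↔ p ∈ meets N := Iff.rfl

/-! ### The conditions -/

variable {Λ : Type}

/-- the elements of the Booth poset -/
abbrev BP (Λ : Type) : Type := Finset ℕ × Finset Λ

/-- the name of the order -/
def ord (b : Λ → Nm (RO P)) (x y : BP Λ) : RO P where
  s := {p | y.1 ⊆ x.1 ∧ y.2 ⊆ x.2 ∧ ∀ k ∈ x.1, k ∉ y.1 → ∀ i ∈ y.2, p ∈ b i k}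
  reg := by
    refine ⟨fun p hp q hq => ⟨hp.1, hp.2.1, fun k hk hk' i hi => (b i k).down hq
      (hp.2.2 k hk hk' i hi)⟩, fun p hp => ?_⟩
    obtain ⟨r, _, hr⟩ := hp p le_rfl
    refine ⟨hr.1, hr.2.1, fun k hk hk' i hi => (b i k).dense fun q hq => ?_⟩
    obtain ⟨r, hr, h⟩ := hp q hq
    exact ⟨r, hr, h.2.2 k hk hk' i hi⟩

theorem mem_ord {b : Λ → Nm (RO P)} {x y : BP Λ} {p : P} :
    p ∈ meets (ord b x y).s ↔
      y.1 ⊆ x.1 ∧ y.2 ⊆ x.2 ∧ ∀ k ∈ x.1, k ∉ y.1 → ∀ i ∈ y.2, p ∈ b i k := by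
  rw [meets_RO]
  rfl

/-- the dense sets -/
def dn (i x : BP Λ) : Set P := {_p | i.2 ⊆ x.2 ∧ ∃ k ∈ x.1, i.1.card ≤ k}

theorem mem_dn {i x : BP Λ} {p : P} :
    p ∈ meets (dn i x : Set P) ↔ i.2 ⊆ x.2 ∧ ∃ k ∈ x.1, i.1.card ≤ k := by
  constructor
  · intro h
    obtain ⟨_, _, _, h', _⟩ := h p le_rfl
    exact h'
  · intro h
    exact meets_of_mem h

theorem isPre (b : Λ → Nm (RO P)) (p : P) : p ∈ IsPreN fun x y => (ord b x y).s := by
  refine ⟨fun x => mem_ord.2 ⟨Finset.Subset.refl _, Finset.Subset.refl _,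
    fun k hk hk' => absurd hk hk'⟩, fun x y z => mem_fimp.2 fun q _ h => ⟨q, le_rfl, ?_⟩⟩
  have h1 := mem_ord.1 h.1
  have h2 := mem_ord.1 h.2
  refine mem_ord.2 ⟨h2.1.trans h1.1, h2.2.1.trans h1.2.1, fun k hk hk' i hi => ?_⟩
  by_cases hky : k ∈ y.1
  · exact h2.2.2 k hky hk' i hi
  · exact h1.2.2 k hk hky i (h2.2.1 hi)

/-- an uncountable subset of `ω₁` which is unbounded in the extension has uncountably many
possible elements -/
theorem isCCC (hP : PCCC P) (b : Λ → Nm (RO P)) (p : P) : p ∈ CCCN fun x y => (ord b x y).s := by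
  classical
  intro Z f
  rw [mem_fimp]
  rintro q _ ⟨hZ, hf⟩
  have h1 : ∀ α : Om1, ∃ a : Om1, α < a ∧ ∃ r ≤ q, r ∈ meets (Z a) ∧ ∃ y, r ∈ meets (f a y) := by
    intro α
    obtain ⟨r, hr, a, hαa, ha⟩ := mem_fex.1 (hZ α) q le_rfl
    obtain ⟨r', hr', y, hy⟩ := IsFun.total (down_IsFun f q hf r hr) a
    exact ⟨a, hαa, r', hr'.trans hr, down_meets _ _ ha _ hr', y, hy⟩
  -- the set of the possible elements
  let S : Set Om1 := {a | ∃ r ≤ q, r ∈ meets (Z a) ∧ ∃ y, r ∈ meets (f a y)}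
  have hS : ¬ S.Countable := by
    intro hc
    have hne : S.Nonempty := by
      obtain ⟨α⟩ : Nonempty Om1 := by infer_instance
      obtain ⟨a, _, ha⟩ := h1 α
      exact ⟨a, ha⟩
    obtain ⟨e, he⟩ := hc.exists_eq_range hne
    obtain ⟨α, hα⟩ := exists_bound e
    obtain ⟨a, hαa, ha⟩ := h1 α
    have ha' : a ∈ S := ha
    rw [he] at ha'
    obtain ⟨n, rfl⟩ := ha'
    exact absurd (hα n) (not_le.2 hαa)
  have h2 : ∀ a : S, ∃ r ≤ q, r ∈ meets (Z a.1) ∧ ∃ y, r ∈ meets (f a.1 y) := fun a => a.2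
  choose r hr hrZ y hy using h2
  have hcard : #(Finset ℕ) * ℵ₀ < #S := by
    have h3 : #(Finset ℕ) = ℵ₀ := by simp
    rw [h3, aleph0_mul_aleph0, ← not_le, le_aleph0_iff_set_countable]
    exact hS
  obtain ⟨a, a', hne, hs, u, hu, hu'⟩ := hP.exists_compat_same hcard r fun a => (y a).1
  refine ⟨u, hu.trans (hr a), ?_⟩
  refine mem_fex_of_mem a.1 (down_fex _) (mem_fex_of_mem a'.1 (down_fand (down_fground _)
    (down_fand (down_meets _) (down_fand (down_meets _) (down_fex _))))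
    ⟨fun h => hne (Subtype.ext h), down_meets _ _ (hrZ a) _ hu, down_meets _ _ (hrZ a') _ hu', ?_⟩)
  refine mem_fex_of_mem (y a) (down_fex _) (mem_fex_of_mem (y a') (down_fand (down_meets _)
    (down_fand (down_meets _) (down_fex _))) ⟨down_meets _ _ (hy a) _ hu,
    down_meets _ _ (hy a') _ hu', ?_⟩)
  refine mem_fex_of_mem ((y a).1, (y a).2 ∪ (y a').2) (down_fand (down_meets _) (down_meets _))
    ⟨mem_ord.2 ⟨Finset.Subset.refl _, Finset.subset_union_left, fun k hk hk' => absurd hk hk'⟩,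
      mem_ord.2 ⟨?_, Finset.subset_union_right, fun k hk hk' => ?_⟩⟩
  · rw [hs]
  · rw [← hs] at hk'
    exact absurd hk hk'

theorem isDense {b : Λ → Nm (RO P)} (hb : ∀ s : Finset Λ, Inf (s.inf b)) (i : BP Λ) (p : P) :
    p ∈ IsDenseN (fun x y => (ord b x y).s) (dn i) := by
  classical
  intro x
  rw [mem_fex]
  intro q _
  obtain ⟨k, hk, hk'⟩ := hb x.2 (pr q) (pr_ne_bot q) (max i.1.card 0)
  obtain ⟨r, hr, hrk⟩ := pr_inf_ne.1 hk'
  refine ⟨r, hr, (insert k x.1, x.2 ∪ i.2), mem_dn.2 ⟨Finset.subset_union_right, k,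
    Finset.mem_insert_self _ _, (le_max_left _ _).trans hk⟩, mem_ord.2
    ⟨Finset.subset_insert _ _, Finset.subset_union_left, fun l hl hl' j hj => ?_⟩⟩
  rcases Finset.mem_insert.1 hl with rfl | hl
  · have h1 : x.2.inf b l ≤ b j l := (Finset.inf_le (f := b) hj) l
    exact h1 r hrk
  · exact absurd hl hl'

/-- the pseudo-intersection given by a filter -/
def gen (F : BP Λ → Set P) : Nm (RO P) := fun k => ⨆ y : {y : BP Λ // k ∈ y.1}, mt (F y.1)

theorem pHyp_of_martin (hP : PCCC P) {κ : Cardinal.{0}} (hκ : ℵ₀ < κ)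
    (h : ∀ Y : Type, Nonempty Y → #Y < κ → ∀ p : P, p ∈ MartinHolds P Y) : PHyp (RO P) κ := by
  classical
  intro Λ b hΛ hb
  have hY : #(BP Λ) < κ := FMA.mk_prod_lt hκ.le (FMA.mk_finset_lt hκ (by rwa [mk_nat]))
    (FMA.mk_finset_lt hκ hΛ)
  -- densely many conditions have a name for a filter
  let good : P → (BP Λ → Set P) → Prop := fun r F =>
    r ∈ fand (IsFilterN (fun x y => (ord b x y).s) F)
      (fall fun i => fex fun x => fand (meets (F x)) (meets (dn i x)))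
  have h1 : ∀ p : P, ∃ r ≤ p, ∃ F, good r F := by
    intro p
    have h2 := h (BP Λ) ⟨(∅, ∅)⟩ hY p
    have h3 := mem_fimp.1 (h2 (fun x y => (ord b x y).s) dn) p le_rfl
      ⟨isPre b p, isCCC hP b p, fun i => isDense hb i p⟩
    obtain ⟨r, hr, h4⟩ := h3
    obtain ⟨r', hr', F, hF⟩ := mem_fex.1 h4 r le_rfl
    exact ⟨r', hr'.trans hr, F, hF⟩
  -- the generic set
  have hInf : ∀ r F, good r F → ∀ c : RO P, c ≤ pr r → c ≠ ⊥ → ∀ N,
      ∃ n, N ≤ n ∧ c ⊓ gen F n ≠ ⊥ := by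
    intro r F hF c hc hc0 N
    obtain ⟨q, hq⟩ := exists_mem_of_ne hc0
    obtain ⟨q', hq', hq'r⟩ := hc q hq q le_rfl
    obtain ⟨w, hw, x, hwx, hwd⟩ := mem_fex.1 (hF.2 (Finset.range N, ∅)) q' hq'r
    obtain ⟨_, k, hk, hNk⟩ := mem_dn.1 hwd
    simp only [Finset.card_range] at hNk
    refine ⟨k, hNk, ne_bot_iff.2 ⟨w, c.down (hw.trans hq') hq, ?_⟩⟩
    exact mem_iSup.2 fun v hv => ⟨v, le_rfl, ⟨x, hk⟩, (mt _).down hv hwx⟩
  have hAS : ∀ r F, good r F → ∀ i, ∀ c : RO P, c ≤ pr r → c ≠ ⊥ →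
      ∃ d ≤ c, d ≠ ⊥ ∧ ∃ N, Fo d (gen F) (b i) N := by
    intro r F hF i c hc hc0
    obtain ⟨q, hq⟩ := exists_mem_of_ne hc0
    obtain ⟨q', hq', hq'r⟩ := hc q hq q le_rfl
    obtain ⟨w, hw, x, hwx, hwd⟩ := mem_fex.1 (hF.2 (∅, {i})) q' hq'r
    have hix : i ∈ x.2 := (mem_dn.1 hwd).1 (Finset.mem_singleton_self i)
    refine ⟨pr w, pr_le.2 (c.down (hw.trans hq') hq), pr_ne_bot w, x.1.sup id + 1,
      fun k hk => ?_⟩
    intro v hv
    refine (b i k).dense fun v1 hv1 => ?_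
    obtain ⟨v2, hv2, hv2w⟩ := hv.1 v1 hv1
    obtain ⟨v3, hv3, ⟨y, hy⟩, hyF⟩ := mem_iSup.1 hv.2 v2 (hv2.trans hv1)
    have hv3r : v3 ≤ r := hv3.trans (hv2w.trans (hw.trans hq'r))
    have hv3x : v3 ∈ meets (F x) := down_meets _ _ hwx _ (hv3.trans hv2w)
    obtain ⟨v4, hv4, h5⟩ := mem_fimp.1 (hF.1.2.2 x y) v3 hv3r ⟨hv3x, hyF⟩
    obtain ⟨v5, hv5, z, _, hzx, hzy⟩ := mem_fex.1 h5 v4 le_rfl
    have hkz : k ∈ z.1 := (mem_ord.1 hzy).1 hy
    have hkx : k ∉ x.1 := fun h' => by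
      have := Finset.le_sup (f := id) h'
      simp only [id] at this
      omega
    exact ⟨v5, hv5.trans (hv4.trans (hv3.trans hv2)), (mem_ord.1 hzx).2.2 k hkz hkx i hix⟩
  -- mixing
  have h2 : ∀ e : RO P, ∃ x : Nm (RO P), (∃ r F, e = pr r ∧ good r F) →
      (∀ c : RO P, c ≤ e → c ≠ ⊥ → ∀ N, ∃ n, N ≤ n ∧ c ⊓ x n ≠ ⊥) ∧
      ∀ i, ∀ c : RO P, c ≤ e → c ≠ ⊥ → ∃ d ≤ c, d ≠ ⊥ ∧ ∃ N, Fo d x (b i) N := by
    intro e
    by_cases he : ∃ r F, e = pr r ∧ good r F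
    · obtain ⟨r, F, rfl, hF⟩ := he
      exact ⟨gen F, fun _ => ⟨hInf r F hF, hAS r F hF⟩⟩
    · exact ⟨⊥, fun h' => absurd h' he⟩
  choose x hx using h2
  obtain ⟨A, y, hA, hApre, hAy⟩ := mix (E := {e | ∃ r F, e = pr r ∧ good r F}) (by
    intro c hc
    obtain ⟨p, hp⟩ := exists_mem_of_ne hc
    obtain ⟨r, hr, F, hF⟩ := h1 p
    exact ⟨pr r, ⟨r, F, rfl, hF⟩, pr_le.2 (c.down hr hp), pr_ne_bot r⟩) x
  refine ⟨y, fun c hc N => ?_, fun i c hc => ?_⟩
  · obtain ⟨e, he, hce⟩ := hApre c hc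
    obtain ⟨n, hn, hn'⟩ := (hx e (hA he)).1 (c ⊓ e) inf_le_right hce N
    refine ⟨n, hn, ne_bot_mono ?_ hn'⟩
    refine le_inf (inf_le_left.trans inf_le_left) ?_
    have h3 : c ⊓ e ⊓ x e n ≤ e ⊓ y n := by
      rw [hAy e he n]
      exact inf_le_inf_right _ inf_le_right
    exact h3.trans inf_le_right
  · obtain ⟨e, he, hce⟩ := hApre c hc
    obtain ⟨d, hd, hd0, N, hN⟩ := (hx e (hA he)).2 i (c ⊓ e) inf_le_right hce
    refine ⟨d, hd.trans inf_le_left, hd0, N, fun n hn => ?_⟩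
    refine le_trans (le_inf inf_le_left ?_) (hN n hn)
    have h3 : d ⊓ y n ≤ e ⊓ x e n := by
      rw [← hAy e he n]
      exact inf_le_inf_right _ (hd.trans inf_le_right)
    exact h3.trans inf_le_right

end Pool.Agent.H625.Tr
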