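import Pool.Agent.H625.BCov.Final
import Pool.Agent.H625.Tr.RO

/-!
# From Boolean valued tall P-ideals to the sentence `Covered P` of the forcing language
-/

set_option autoImplicit false

namespace Pool.Agent.H625.Tr

open Pool.Agent.TH773.PSet (RName FName Sub Same AlmostSub Disj Cover Mem IsFilter IsUltra IsP
  IsNwd Incl Covered mem_fex mem_fimp mem_fimp_reg mem_fex_of mem_disj reg_meets reg_mem
  reg_isUltra reg_isFilter reg_almostSub reg_inf reg_sub reg_cover reg_disjoint mem_of_same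
  same_of Down Reg mem_fand mem_fall)
open Pool.Agent.H625.BCov (Nm AS Fo Pt TallP Fin ne_bot_mono inf_iSup_ne eq_bot_of_le_compl
  le_of_dense)

variable {P : Type} [Preorder P]

/-- the Boolean valued set given by a name -/
def toNm (A : RName P) : Nm (RO P) := fun n => ⟨Pool.Agent.TH773.PSet.meets (A n), reg_meets _⟩

/-- the name given by a Boolean valued set -/
def ofNm (x : Nm (RO P)) : RName P := fun n => (x n).s

theorem mem_toNm {A : RName P} {n : ℕ} {p : P} :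
    p ∈ toNm A n ↔ p ∈ Pool.Agent.TH773.PSet.meets (A n) := Iff.rfl

theorem toNm_ofNm (x : Nm (RO P)) : toNm (ofNm x) = x := by
  funext n
  apply RO.ext'
  intro p
  constructor
  · intro h
    refine (x n).dense fun q hq => ?_
    obtain ⟨r, hr, s, hs, hrs⟩ := h q hq
    exact ⟨r, hr, (x n).down hrs hs⟩
  · intro h q hq
    exact ⟨q, le_rfl, q, (x n).down hq h, le_rfl⟩

theorem same_ofNm (A : RName P) (p : P) : p ∈ Same (ofNm (toNm A)) A := by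
  refine same_of fun q _ n => ?_
  have h := congrFun (toNm_ofNm (toNm A)) n
  rw [← mem_toNm, ← mem_toNm, h]

theorem mem_sub {A B : RName P} {p : P} :
    p ∈ Sub A B ↔ ∀ n, ∀ q ≤ p, q ∈ toNm A n → q ∈ toNm B n := by
  refine forall_congr' fun n => ?_
  exact mem_fimp_reg (reg_meets _).1 (reg_meets _)

theorem mem_almostSub {A B : RName P} {p : P} :
    p ∈ AlmostSub A B ↔ ∀ q ≤ p, ∃ r ≤ q, ∃ N : ℕ, ∀ n, N ≤ n → ∀ s ≤ r, s ∈ toNm A n →
      s ∈ toNm B n := by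
  refine mem_fex.trans (forall_congr' fun q => forall_congr' fun _ => exists_congr fun r =>
    and_congr_right fun _ => exists_congr fun N => forall_congr' fun n => forall_congr' fun _ => ?_)
  exact mem_fimp_reg (reg_meets _).1 (reg_meets _)

theorem mem_inf' {A : RName P} {p : P} :
    p ∈ Pool.Agent.TH773.PSet.Inf A ↔ ∀ N : ℕ, ∀ q ≤ p, ∃ r ≤ q, ∃ n, N ≤ n ∧ r ∈ toNm A n := by
  constructor
  · intro h N q hq
    obtain ⟨r, hr, n, h1⟩ := mem_fex.1 (h N) q hq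
    obtain ⟨s, hs, hn, h2⟩ := mem_fex.1 h1 r le_rfl
    exact ⟨s, hs.trans hr, n, hn, h2⟩
  · intro h N
    refine mem_fex.2 fun q hq => ?_
    obtain ⟨r, hr, n, hn, h1⟩ := h N q hq
    exact ⟨r, hr, n, mem_fex.2 fun s hs => ⟨s, le_rfl, hn, (toNm A n).down hs h1⟩⟩

theorem mem_disj' {A B : RName P} {p : P} :
    p ∈ Disj A B ↔ ∀ n, ∀ q ≤ p, ¬ (q ∈ toNm A n ∧ q ∈ toNm B n) := Iff.rfl

theorem mem_cover {A B : RName P} {p : P} :
    p ∈ Cover A B ↔ ∀ n, ∀ q ≤ p, ∃ r ≤ q, r ∈ toNm A n ∨ r ∈ toNm B n :=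
  forall_congr' fun _ => mem_disj

/-! ### Points -/

section Pt

variable {B : Type} [CompleteBooleanAlgebra B]

theorem eq_of_split {a c b : B} (h1 : b ⊓ a = b ⊓ c) (h2 : bᶜ ⊓ a = bᶜ ⊓ c) : a = c := by
  rw [← sup_inf_inf_compl (x := a) (y := b), ← sup_inf_inf_compl (x := c) (y := b)]
  rw [inf_comm a b, inf_comm c b, inf_comm a bᶜ, inf_comm c bᶜ, h1, h2]

/-- mixing a point given below `b` with another one -/
theorem mix_pt (b : B) (v : Nm B → B) (w : Pt B)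
    (h1 : ∀ x y, b ⊓ v (x ⊓ y) = b ⊓ (v x ⊓ v y)) (h2 : ∀ x, b ⊓ v xᶜ = b ⊓ (v x)ᶜ)
    (h3 : ∀ c, b ⊓ v (fun _ => c) = b ⊓ c)
    (h4 : ∀ N : ℕ, b ⊓ v (fun n => if n < N then ⊤ else ⊥) = ⊥) :
    ∃ u : Pt B, ∀ x, b ⊓ u.u x = b ⊓ v x := by
  have hl : ∀ x : Nm B, b ⊓ ((b ⊓ v x) ⊔ (bᶜ ⊓ w.u x)) = b ⊓ v x := by
    intro x
    rw [inf_sup_left, ← inf_assoc, inf_idem, ← inf_assoc, inf_compl_eq_bot, bot_inf_eq,
      sup_bot_eq]
  have hr : ∀ x : Nm B, bᶜ ⊓ ((b ⊓ v x) ⊔ (bᶜ ⊓ w.u x)) = bᶜ ⊓ w.u x := by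
    intro x
    rw [inf_sup_left, ← inf_assoc, compl_inf_eq_bot, bot_inf_eq, bot_sup_eq, ← inf_assoc,
      inf_idem]
  have hinf : ∀ a x y : B, a ⊓ (x ⊓ y) = (a ⊓ x) ⊓ (a ⊓ y) := fun a x y => inf_inf_distrib_left _ _ _
  have hcompl : ∀ a x y : B, a ⊓ x = a ⊓ y → a ⊓ xᶜ = a ⊓ yᶜ := by
    intro a x y h
    have key : ∀ x : B, a ⊓ xᶜ = a ⊓ (a ⊓ x)ᶜ := by
      intro x
      rw [compl_inf, inf_sup_left, inf_compl_eq_bot, bot_sup_eq]
    rw [key x, key y, h]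
  refine ⟨⟨fun x => (b ⊓ v x) ⊔ (bᶜ ⊓ w.u x), ?_, ?_, ?_, ?_⟩, hl⟩
  · intro x y
    apply eq_of_split (b := b)
    · rw [hl, hinf, hl, hl, h1, hinf]
    · rw [hr, hinf, hr, hr, w.inf', hinf]
  · intro x
    apply eq_of_split (b := b)
    · rw [hl, h2]
      exact hcompl _ _ _ (hl x).symm
    · rw [hr, w.compl']
      exact hcompl _ _ _ (hr x).symm
  · intro c
    apply eq_of_split (b := b)
    · rw [hl, h3]
    · rw [hr, w.const']
  · intro N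
    show (b ⊓ v _) ⊔ (bᶜ ⊓ w.u _) = ⊥
    rw [h4, w.fin', inf_bot_eq, sup_bot_eq]

/-- local version of the fact that the members of an ultrafilter are infinite -/
theorem inf_of_le (p : Pt B) {x : Nm B} {c : B} (h : c ≤ p.u x) (hc : c ≠ ⊥) (N : ℕ) :
    ∃ n, N ≤ n ∧ c ⊓ x n ≠ ⊥ := by
  by_contra hcon
  push Not at hcon
  have h2 : (fun _ => c) ⊓ x ≤ (fun n => if n < N then ⊤ else ⊥) := by
    intro n
    show c ⊓ x n ≤ if n < N then ⊤ else ⊥
    by_cases hn : n < N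
    · simp [hn]
    · rw [if_neg hn, hcon n (not_lt.1 hn)]
  have h3 := p.mono h2
  rw [p.inf', p.const', p.fin', inf_eq_left.2 h, le_bot_iff] at h3
  exact hc h3

/-- a set locally almost included in members of a tall P-ideal is a member -/
theorem mem_of_local
    (hB : ∀ D : Set B, (∀ d ∈ D, d ≠ ⊥) → (∀ d ∈ D, ∀ e ∈ D, d ≠ e → d ⊓ e = ⊥) → D.Countable)
    {J : Set (Nm B)} (hJ : TallP J) {z : Nm B}
    (h : ∀ b : B, b ≠ ⊥ → ∃ c ≤ b, c ≠ ⊥ ∧ ∃ x ∈ J, ∃ N, Fo c z x N) : z ∈ J := by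
  let Φ : Set (Set B) := {A | (∀ e ∈ A, e ≠ ⊥ ∧ ∃ x ∈ J, ∃ N, Fo e z x N) ∧
    ∀ e ∈ A, ∀ e' ∈ A, e ≠ e' → e ⊓ e' = ⊥}
  obtain ⟨A, hA⟩ := zorn_subset Φ (by
    intro c hc hchain
    refine ⟨⋃₀ c, ⟨?_, ?_⟩, fun s hs => Set.subset_sUnion_of_mem hs⟩
    · rintro e ⟨s, hs, he⟩
      exact (hc hs).1 e he
    · rintro e ⟨s, hs, he⟩ e' ⟨t, ht, he'⟩ hne
      rcases hchain.total hs ht with h | h
      · exact (hc ht).2 e (h he) e' he' hne
      · exact (hc hs).2 e he e' (h he') hne)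
  obtain ⟨hA1, hAd⟩ := hA.prop
  have hAc : A.Countable := hB A (fun e he => (hA1 e he).1) hAd
  have hpre : ∀ b : B, b ≠ ⊥ → ∃ e ∈ A, b ⊓ e ≠ ⊥ := by
    intro b hb
    by_contra hcon
    push Not at hcon
    obtain ⟨e, heb, he0, he⟩ := h b hb
    have h1 : ∀ a ∈ A, e ⊓ a = ⊥ := by
      intro a ha
      rw [← le_bot_iff, ← hcon a ha]
      exact inf_le_inf_right _ heb
    have h2 : insert e A ∈ Φ := by
      refine ⟨?_, ?_⟩
      · rintro a (rfl | ha)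
        · exact ⟨he0, he⟩
        · exact hA1 a ha
      · rintro a (rfl | ha) a' (rfl | ha') hne
        · exact absurd rfl hne
        · exact h1 a' ha'
        · rw [inf_comm]
          exact h1 a ha
        · exact hAd a ha a' ha' hne
    have h3 : e ∈ A := hA.le_of_ge h2 (Set.subset_insert _ _) (Set.mem_insert _ _)
    have h4 := h1 e h3
    rw [inf_idem] at h4
    exact he0 h4
  obtain ⟨a0, _, _, ha0⟩ := hJ.tall ⊤ BCov.inf_top
  have hx : ∀ e : B, ∃ x ∈ J, e ∈ A → ∃ N, Fo e z x N := by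
    intro e
    by_cases he : e ∈ A
    · obtain ⟨_, x, hx, N, hN⟩ := hA1 e he
      exact ⟨x, hx, fun _ => ⟨N, hN⟩⟩
    · exact ⟨a0, ha0, fun h => absurd h he⟩
  choose x hxJ hx using hx
  rcases A.eq_empty_or_nonempty with hA0 | hA0
  · refine hJ.down z a0 ?_ ha0
    intro b hb
    obtain ⟨e, he, _⟩ := hpre b hb
    rw [hA0] at he
    exact absurd he (Set.notMem_empty e)
  obtain ⟨g, hg⟩ := hAc.exists_eq_range hA0
  obtain ⟨y, hy, hy'⟩ := hJ.pid (fun n => x (g n)) fun n => hxJ _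
  refine hJ.down z y ?_ hy
  intro b hb
  obtain ⟨e, he, hbe⟩ := hpre b hb
  obtain ⟨N, hN⟩ := hx e he
  rw [hg] at he
  obtain ⟨n, rfl⟩ := he
  obtain ⟨d, hd, hd0, N', hN'⟩ := hy' n _ hbe
  refine ⟨d, hd.trans inf_le_left, hd0, max N N', fun k hk => ?_⟩
  refine le_trans (le_inf inf_le_left ?_) (hN' k ((le_max_right _ _).trans hk))
  exact (inf_le_inf_right _ (hd.trans inf_le_right)).trans (hN k ((le_max_left _ _).trans hk))

end Pt

/-- the point given by a name for an ultrafilter -/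
theorem exists_pt_of_name (U : FName P) : ∃ u : Pt (RO P), ∀ p ∈ IsUltra U, ∀ x : Nm (RO P),
    p ∈ u.u x → p ∈ Mem (ofNm x) U := by
  obtain ⟨w, _⟩ := BCov.exists_pt (B := RO P) BCov.inf_top
  let b : RO P := ⟨IsUltra U, reg_isUltra U⟩
  let v : Nm (RO P) → RO P := fun x => ⟨Mem (ofNm x) U, reg_mem _ _⟩
  have hinf : ∀ p ∈ IsUltra U, ∀ A : RName P, p ∈ Mem A U → p ∈ Pool.Agent.TH773.PSet.Inf A :=
    fun p hp A hA => (mem_fimp_reg (reg_mem _ _).1 (reg_inf _)).1 (hp.1.2.1 A) p le_rfl hA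
  have hup : ∀ p ∈ IsUltra U, ∀ A B : RName P, p ∈ Mem A U → p ∈ AlmostSub A B → p ∈ Mem B U :=
    fun p hp A B hA hAB => (mem_fimp_reg (φ := Pool.Agent.TH773.PSet.fand (Mem A U) (AlmostSub A B))
      (Pool.Agent.TH773.PSet.down_fand (reg_mem _ _).1 (reg_almostSub _ _).1)
      (reg_mem _ _)).1 (hp.1.2.2.1 A B) p le_rfl ⟨hA, hAB⟩
  have hcap : ∀ p ∈ IsUltra U, ∀ A B : RName P, p ∈ Mem A U → p ∈ Mem B U →
      ∃ q ≤ p, ∃ C : RName P, q ∈ Mem C U ∧ q ∈ Sub C A ∧ q ∈ Sub C B := by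
    intro p hp A B hA hB
    obtain ⟨r, hr, h⟩ := mem_fimp.1 (hp.1.2.2.2 A B) p le_rfl ⟨hA, hB⟩
    obtain ⟨r', hr', C, h'⟩ := mem_fex.1 h r le_rfl
    exact ⟨r', hr'.trans hr, C, h'⟩
  have hdown : ∀ p ∈ IsUltra U, ∀ q ≤ p, q ∈ IsUltra U := fun p hp q hq => b.down hq hp
  have halm : ∀ (p : P) (A B : RName P), p ∈ Sub A B → p ∈ AlmostSub A B := by
    intro p A B h
    refine mem_almostSub.2 fun q hq => ⟨q, le_rfl, 0, fun n _ s hs => ?_⟩
    exact mem_sub.1 h n s (hs.trans hq)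
  have hmono : ∀ p ∈ IsUltra U, ∀ x y : Nm (RO P), x ≤ y → p ∈ Mem (ofNm x) U →
      p ∈ Mem (ofNm y) U := by
    intro p hp x y hxy h
    refine hup p hp _ _ h (halm _ _ _ (mem_sub.2 fun n q _ hq' => ?_))
    rw [toNm_ofNm] at hq' ⊢
    exact hxy n q hq'
  obtain ⟨u, hu⟩ := mix_pt b v w (by
    intro x y
    apply RO.ext'
    intro p
    constructor
    · rintro ⟨hp, h⟩
      exact ⟨hp, hmono p hp _ _ inf_le_left h, hmono p hp _ _ inf_le_right h⟩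
    · rintro ⟨hp, h, h'⟩
      refine ⟨hp, (v (x ⊓ y)).dense fun q hq => ?_⟩
      obtain ⟨r, hr, C, hC, h1, h2⟩ := hcap q (hdown p hp q hq) _ _ ((v x).down hq h)
        ((v y).down hq h')
      refine ⟨r, hr, hup r (hdown p hp r (hr.trans hq)) _ _ hC (halm _ _ _
        (mem_sub.2 fun n s hs hs' => ?_))⟩
      have h3 := mem_sub.1 h1 n s hs hs'
      have h4 := mem_sub.1 h2 n s hs hs'
      rw [toNm_ofNm] at h3 h4 ⊢
      exact ⟨h3, h4⟩) (by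
    intro x
    apply RO.ext'
    intro p
    constructor
    · rintro ⟨hp, h⟩
      refine ⟨hp, fun q hq hqx => ?_⟩
      obtain ⟨r, hr, C, hC, h1, h2⟩ := hcap q (hdown p hp q hq) _ _ hqx ((v xᶜ).down hq h)
      obtain ⟨s, hs, n, _, hsC⟩ := mem_inf'.1 (hinf r (hdown p hp r (hr.trans hq)) C hC) 0 r le_rfl
      have h3 := mem_sub.1 h1 n s hs hsC
      have h4 := mem_sub.1 h2 n s hs hsC
      rw [toNm_ofNm] at h3 h4
      exact h4 s le_rfl h3
    · rintro ⟨hp, h⟩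
      refine ⟨hp, (v xᶜ).dense fun q hq => ?_⟩
      have h1 : q ∈ Cover (ofNm x) (ofNm xᶜ) := by
        refine mem_cover.2 fun n r hr => ?_
        rw [toNm_ofNm, toNm_ofNm]
        by_cases hx : ∃ s ≤ r, s ∈ x n
        · obtain ⟨s, hs, hsx⟩ := hx
          exact ⟨s, hs, Or.inl hsx⟩
        · push Not at hx
          exact ⟨r, le_rfl, Or.inr hx⟩
      obtain ⟨r, hr, h2⟩ := mem_fimp.1 (hp.2 (ofNm x) (ofNm xᶜ)) q hq h1
      obtain ⟨s, hs, h3 | h3⟩ := mem_disj.1 h2 r le_rfl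
      · exact absurd h3 (h s (hs.trans (hr.trans hq)))
      · exact ⟨s, hs.trans hr, h3⟩) (by
    intro c
    apply RO.ext'
    intro p
    constructor
    · rintro ⟨hp, h⟩
      refine ⟨hp, c.dense fun q hq => ?_⟩
      obtain ⟨r, hr, n, _, h1⟩ := mem_inf'.1 (hinf p hp _ h) 0 q hq
      rw [toNm_ofNm] at h1
      exact ⟨r, hr, h1⟩
    · rintro ⟨hp, h⟩
      refine ⟨hp, (v fun _ => c).dense fun q hq => ?_⟩
      obtain ⟨r, hr, A, hA⟩ := mem_fex.1 hp.1.1 q hq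
      refine ⟨r, hr, hup r (hdown p hp r (hr.trans hq)) _ _ hA (halm _ _ _
        (mem_sub.2 fun n s hs _ => ?_))⟩
      rw [toNm_ofNm]
      exact c.down (hs.trans (hr.trans hq)) h) (by
    intro N
    apply RO.ext'
    intro p
    constructor
    · rintro ⟨hp, h⟩
      obtain ⟨r, _, n, hn, h1⟩ := mem_inf'.1 (hinf p hp _ h) N p le_rfl
      rw [toNm_ofNm] at h1
      simp only [if_neg (not_lt.2 hn)] at h1
      exact absurd h1 notMem_bot
    · exact fun h => absurd h notMem_bot)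
  refine ⟨u, fun p hp x hx => ?_⟩
  have h1 : p ∈ b ⊓ u.u x := ⟨hp, hx⟩
  rw [hu] at h1
  exact h1.2

/-- the complement of `A` below `p` -/
def cm (p : P) (A : RName P) : Nm (RO P) := fun n => pr p ⊓ (toNm A n)ᶜ

section Main

variable (hP : ∀ A : Set P, (∀ p ∈ A, ∀ q ∈ A, p ≠ q → ¬ ∃ r, r ≤ p ∧ r ≤ q) → A.Countable)
  {J : Set (Nm (RO P))} (hJ : TallP J)

/-- the name of the filter dual to a tall P-ideal -/
def dual (J : Set (Nm (RO P))) : FName P := fun A => {p | cm p A ∈ J}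

include hJ in
theorem down_dual (A : RName P) {p q : P} (hq : q ≤ p) (h : cm p A ∈ J) : cm q A ∈ J := by
  refine hJ.down _ _ (AS.of_le fun n => inf_le_inf_right _ ?_) h
  exact pr_le.2 ((pr p).down hq (self_mem_pr p))

include hP hJ in
theorem mem_dual {A : RName P} {p : P} : p ∈ Mem A (dual J) ↔ cm p A ∈ J := by
  constructor
  · intro h
    refine mem_of_local (fun D h1 h2 => ccc_RO hP D h1 h2) hJ fun b hb => ?_
    by_cases hbp : b ⊓ pr p = ⊥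
    · obtain ⟨a0, _, _, ha0⟩ := hJ.tall ⊤ BCov.inf_top
      refine ⟨b, le_rfl, hb, a0, ha0, 0, fun n _ => ?_⟩
      have h1 : b ⊓ cm p A n ≤ b ⊓ pr p := inf_le_inf_left _ inf_le_left
      rw [hbp] at h1
      exact h1.trans bot_le
    · obtain ⟨q, hqb, hqp⟩ := exists_mem_of_ne hbp
      obtain ⟨q', hq', hq'p⟩ := hqp q le_rfl
      obtain ⟨r, hr, C, hC, hrC⟩ := mem_fex.1 h q' hq'p
      obtain ⟨s, hs, t, ht, hst⟩ := hrC r le_rfl
      have hsC : cm s C ∈ J := down_dual hJ C hst ht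
      refine ⟨pr s, pr_le.2 (b.down (hs.trans (hr.trans hq')) hqb), pr_ne_bot s, cm s C, hsC, 0,
        fun n _ => ?_⟩
      intro v hv
      refine ⟨hv.1, fun w hw hwC => ?_⟩
      -- `w` belongs to `C n`, so some extension belongs to `A n`
      obtain ⟨w', hw', hw's⟩ := hv.1 w hw
      have h1 := (Pool.Agent.TH773.PSet.meets_of_same hC (hw's.trans hs) n).2
        ((toNm C n).down hw' hwC)
      exact hv.2.2 w' (hw'.trans hw) h1
  · intro h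
    refine mem_fex_of A fun q hq => ⟨same_of fun _ _ _ => Iff.rfl, ?_⟩
    intro r hr
    exact ⟨r, le_rfl, r, down_dual hJ A (hr.trans hq) h, le_rfl⟩

include hP hJ in
theorem isP_dual (p : P) : p ∈ IsP (dual J) := by
  intro A
  rw [mem_fimp]
  intro q _ h
  refine ⟨q, le_rfl, ?_⟩
  obtain ⟨y, hy, hy'⟩ := hJ.pid (fun n => cm q (A n)) fun n => (mem_dual hP hJ).1 (h n)
  refine mem_fex_of (ofNm yᶜ) fun r hr => ⟨(mem_dual hP hJ).2 ?_, fun n => mem_almostSub.2 ?_⟩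
  · refine hJ.down _ _ (AS.of_le fun n => ?_) hy
    show pr r ⊓ (toNm (ofNm yᶜ) n)ᶜ ≤ y n
    rw [toNm_ofNm]
    show pr r ⊓ ((y n)ᶜ)ᶜ ≤ y n
    rw [compl_compl]
    exact inf_le_right
  · intro s hs
    obtain ⟨c, hc, hc0, N, hN⟩ := hy' n (pr s) (pr_ne_bot s)
    obtain ⟨w, hw⟩ := exists_mem_of_ne hc0
    obtain ⟨w', hw', hw's⟩ := hc w hw w le_rfl
    refine ⟨w', hw's, N, fun k hk v hv hvy => ?_⟩
    rw [toNm_ofNm] at hvy
    refine (toNm (A n) k).dense fun v1 hv1 => ?_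
    by_contra hcon
    push Not at hcon
    have h1 : v1 ∈ c ⊓ cm q (A n) k := by
      refine ⟨c.down (hv1.trans (hv.trans hw')) hw, (pr q).down ?_ (self_mem_pr q), hcon⟩
      exact hv1.trans (hv.trans (hw's.trans (hs.trans hr)))
    exact hvy v1 hv1 (hN k hk v1 h1)

include hP hJ in
theorem isNwd_dual (p : P) : p ∈ IsNwd (dual J) := by
  intro A
  rw [mem_fimp]
  intro q _ h
  refine ⟨q, le_rfl, ?_⟩
  have hA := mem_inf'.1 h
  let b : Nm (RO P) := fun n => (pr q ⊓ toNm A n) ⊔ (pr q)ᶜ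
  have hb : BCov.Inf b := by
    intro c hc N
    by_cases hcq : c ⊓ pr q = ⊥
    · refine ⟨N, le_rfl, ?_⟩
      have h1 : c ≤ (pr q)ᶜ := (disjoint_iff.2 hcq).le_compl_right
      exact ne_bot_mono (le_inf le_rfl (h1.trans le_sup_right)) hc
    · obtain ⟨r, hrc, hrq⟩ := exists_mem_of_ne hcq
      obtain ⟨r', hr', hr'q⟩ := hrq r le_rfl
      obtain ⟨s, hs, n, hn, hsA⟩ := hA N r' hr'q
      refine ⟨n, hn, ne_bot_iff.2 ⟨s, c.down (hs.trans hr') hrc, ?_⟩⟩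
      have h1 : s ∈ pr q ⊓ toNm A n :=
        ⟨(pr q).down (hs.trans hr'q) (self_mem_pr q), hsA⟩
      exact (le_sup_left : pr q ⊓ toNm A n ≤ _) s h1
  obtain ⟨a, hab, ha, haJ⟩ := hJ.tall b hb
  refine mem_fex_of (ofNm a) fun r hr => mem_fex_of (ofNm aᶜ) fun s hs => ⟨?_, ?_, ?_, ?_⟩
  · refine mem_inf'.2 fun N w _ => ?_
    obtain ⟨n, hn, hn'⟩ := ha (pr w) (pr_ne_bot w) N
    obtain ⟨v, hv, hva⟩ := pr_inf_ne.1 hn'
    exact ⟨v, hv, n, hn, by rwa [toNm_ofNm]⟩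
  · refine mem_sub.2 fun n w hw hwa => ?_
    rw [toNm_ofNm] at hwa
    have h1 : w ∈ pr q ⊓ b n := ⟨(pr q).down (hw.trans (hs.trans hr)) (self_mem_pr q), hab n w hwa⟩
    have h2 : pr q ⊓ b n ≤ toNm A n := by
      show pr q ⊓ ((pr q ⊓ toNm A n) ⊔ (pr q)ᶜ) ≤ toNm A n
      rw [inf_sup_left, inf_compl_eq_bot, sup_bot_eq]
      exact inf_le_right.trans inf_le_right
    exact h2 w h1
  · refine (mem_dual hP hJ).2 (hJ.down _ _ (AS.of_le fun n => ?_) haJ)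
    show pr s ⊓ (toNm (ofNm aᶜ) n)ᶜ ≤ a n
    rw [toNm_ofNm]
    show pr s ⊓ ((a n)ᶜ)ᶜ ≤ a n
    rw [compl_compl]
    exact inf_le_right
  · refine mem_disj'.2 fun n w _ hw => ?_
    rw [toNm_ofNm, toNm_ofNm] at hw
    exact hw.2 w le_rfl hw.1

/-- a condition forcing that `A` is in the dual filter forces it to be in the point -/
theorem le_pt {u : Pt (RO P)} (hu : ∀ x ∈ J, u.u x = ⊥) {A : RName P} {p : P} (h : cm p A ∈ J) :
    p ∈ u.u (toNm A) := by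
  have h1 : u.u ((fun _ => pr p) ⊓ (toNm A)ᶜ) = ⊥ := hu _ h
  rw [u.inf', u.const', u.compl'] at h1
  have h2 : pr p ≤ ((u.u (toNm A))ᶜ)ᶜ := (disjoint_iff.2 h1).le_compl_right
  rw [compl_compl] at h2
  exact pr_le.1 h2

include hP hJ in
theorem isFilter_dual {u : Pt (RO P)} (hu : ∀ x ∈ J, u.u x = ⊥) (p : P) :
    p ∈ IsFilter (dual J) := by
  refine ⟨?_, fun A => ?_, fun A C => ?_, fun A C => ?_⟩
  · obtain ⟨a0, _, _, ha0⟩ := hJ.tall ⊤ BCov.inf_top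
    refine mem_fex_of (ofNm ⊤) fun q _ => (mem_dual hP hJ).2 ?_
    refine hJ.down _ _ (AS.of_le fun n => ?_) ha0
    show pr q ⊓ (toNm (ofNm ⊤) n)ᶜ ≤ a0 n
    rw [toNm_ofNm]
    show pr q ⊓ (⊤ : RO P)ᶜ ≤ a0 n
    rw [compl_top, inf_bot_eq]
    exact bot_le
  · rw [mem_fimp]
    intro q _ h
    refine ⟨q, le_rfl, mem_inf'.2 fun N r hr => ?_⟩
    have h1 := le_pt hu ((mem_dual hP hJ).1 h)
    have h2 : pr r ≤ u.u (toNm A) := pr_le.2 ((u.u (toNm A)).down hr h1)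
    obtain ⟨n, hn, hn'⟩ := inf_of_le u h2 (pr_ne_bot r) N
    obtain ⟨s, hs, hsA⟩ := pr_inf_ne.1 hn'
    exact ⟨s, hs, n, hn, hsA⟩
  · rw [mem_fimp]
    rintro q _ ⟨h, h'⟩
    refine ⟨q, le_rfl, (mem_dual hP hJ).2 (hJ.down _ _ ?_ ((mem_dual hP hJ).1 h))⟩
    intro b hb
    by_cases hbq : b ⊓ pr q = ⊥
    · refine ⟨b, le_rfl, hb, 0, fun n _ => ?_⟩
      have h1 : b ⊓ cm q C n ≤ b ⊓ pr q := inf_le_inf_left _ inf_le_left
      rw [hbq] at h1
      exact h1.trans bot_le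
    · obtain ⟨r, hrb, hrq⟩ := exists_mem_of_ne hbq
      obtain ⟨r', hr', hr'q⟩ := hrq r le_rfl
      obtain ⟨s, hs, N, hN⟩ := mem_almostSub.1 h' r' hr'q
      refine ⟨pr s, pr_le.2 (b.down (hs.trans hr') hrb), pr_ne_bot s, N, fun n hn => ?_⟩
      rintro v ⟨hvs, hvq, hvC⟩
      refine ⟨hvq, fun w hw hwA => ?_⟩
      obtain ⟨w', hw', hw's⟩ := hvs w hw
      exact hvC w' (hw'.trans hw) (hN n hn w' hw's ((toNm A n).down hw' hwA))
  · rw [mem_fimp]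
    rintro q _ ⟨h, h'⟩
    refine ⟨q, le_rfl, mem_fex_of (ofNm (toNm A ⊓ toNm C)) fun r hr => ⟨(mem_dual hP hJ).2 ?_,
      mem_sub.2 fun n s _ hs => ?_, mem_sub.2 fun n s _ hs => ?_⟩⟩
    · refine hJ.down _ _ (AS.of_le fun n => ?_) (hJ.sup ((mem_dual hP hJ).1 h)
        ((mem_dual hP hJ).1 h'))
      show pr r ⊓ (toNm (ofNm (toNm A ⊓ toNm C)) n)ᶜ ≤ (pr q ⊓ (toNm A n)ᶜ) ⊔ (pr q ⊓ (toNm C n)ᶜ)
      rw [toNm_ofNm]
      show pr r ⊓ (toNm A n ⊓ toNm C n)ᶜ ≤ _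
      rw [compl_inf, ← inf_sup_left]
      exact inf_le_inf_right _ (pr_le.2 ((pr q).down hr (self_mem_pr q)))
    · rw [toNm_ofNm] at hs
      exact hs.1
    · rw [toNm_ofNm] at hs
      exact hs.2

end Main

/-- If every Boolean valued point is disjoint from a Boolean valued tall P-ideal, then it is
forced that `ω*` is covered by nowhere dense P-sets. -/
theorem covered (hP : ∀ A : Set P, (∀ p ∈ A, ∀ q ∈ A, p ≠ q → ¬ ∃ r, r ≤ p ∧ r ≤ q) → A.Countable)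
    (h : ∀ u : Pt (RO P), ∃ J : Set (Nm (RO P)), TallP J ∧ ∀ x ∈ J, u.u x = ⊥) (p : P) :
    p ∈ Covered P := by
  intro U
  rw [mem_fimp]
  intro q _ hU
  refine ⟨q, le_rfl, ?_⟩
  obtain ⟨u, hu⟩ := exists_pt_of_name U
  obtain ⟨J, hJ, hJu⟩ := h u
  refine mem_fex_of (dual J) fun r hr => ⟨isFilter_dual hP hJ hJu r, isP_dual hP hJ r,
    isNwd_dual hP hJ r, fun A => ?_⟩
  rw [mem_fimp]
  intro s hs hA
  refine ⟨s, le_rfl, ?_⟩
  have h1 := le_pt hJu ((mem_dual hP hJ).1 hA)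
  have h2 := hu s ((reg_isUltra U).1 q hU s (hs.trans hr)) _ h1
  exact mem_of_same (same_ofNm A s) h2

end Pool.Agent.H625.Tr
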