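import Pool.Agent.H625.Tr.Booth

/-!
# Forced Martin's axiom implies that the continuum is large
-/

set_option autoImplicit false

namespace Pool.Agent.H625.Tr

open Cardinal Pool.Agent.Helper669.Forcing
open Pool.Agent.W684.FM (PCCC IsPreN CCCN IsDenseN IsFilterN CompatN UnbN MartinHolds Om1
  exists_bound exists_gt_om1)

variable {P : Type} [Preorder P] {Y : Type}

/-- the elements of the poset: finite sequences, with dummy elements of `Y` -/
abbrev CP (Y : Type) : Type := List ℕ × Option Y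

/-- the order: extension of sequences -/
def cord (x y : CP Y) : Set P := {_p | y.1 <+: x.1}

theorem mem_cord {x y : CP Y} {p : P} : p ∈ meets (cord x y : Set P) ↔ y.1 <+: x.1 := by
  constructor
  · intro h
    obtain ⟨_, _, _, h', _⟩ := h p le_rfl
    exact h'
  · intro h
    exact meets_of_mem h

/-- the dense sets -/
def cdn (E : Y → ℕ → ℕ → Set P) (i x : CP Y) : Set P :=
  {p | i.1.length ≤ x.1.length ∧ ∀ y, i.2 = some y →
    ∃ n, ∃ h : n < x.1.length, ∃ m, m ≠ x.1[n] ∧ p ∈ meets (E y n m)}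

theorem down_cdn (E : Y → ℕ → ℕ → Set P) (i x : CP Y) : Down (cdn E i x) := by
  rintro p ⟨h1, h2⟩ q hq
  refine ⟨h1, fun y hy => ?_⟩
  obtain ⟨n, h, m, hm, h3⟩ := h2 y hy
  exact ⟨n, h, m, hm, down_meets _ _ h3 _ hq⟩

theorem cisPre (p : P) : p ∈ IsPreN (cord : CP Y → CP Y → Set P) :=
  ⟨fun _ => mem_cord.2 (List.prefix_refl _), fun _ _ _ => mem_fimp.2 fun q _ h =>
    ⟨q, le_rfl, mem_cord.2 ((mem_cord.1 h.2).trans (mem_cord.1 h.1))⟩⟩

theorem cisCCC (hP : PCCC P) (p : P) : p ∈ CCCN (cord : CP Y → CP Y → Set P) := by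
  classical
  intro Z f
  rw [mem_fimp]
  rintro q _ ⟨hZ, hf⟩
  have h1 : ∀ α : Om1, ∃ a : Om1, α < a ∧ ∃ r ≤ q, r ∈ meets (Z a) ∧ ∃ y, r ∈ meets (f a y) := by
    intro α
    obtain ⟨r, hr, a, hαa, ha⟩ := mem_fex.1 (hZ α) q le_rfl
    obtain ⟨r', hr', y, hy⟩ := IsFun.total (down_IsFun f q hf r hr) a
    exact ⟨a, hαa, r', hr'.trans hr, down_meets _ _ ha _ hr', y, hy⟩
  let S : Set Om1 := {a | ∃ r ≤ q, r ∈ meets (Z a) ∧ ∃ y, r ∈ meets (f a y)}
  have hS : ¬ S.Countable := by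
    intro hc
    have hne : S.Nonempty := by
      obtain ⟨α⟩ : Nonempty Om1 := by infer_instance
      obtain ⟨a, _, ha⟩ := h1 α
      exact ⟨a, ha⟩
    obtain ⟨e, he⟩ := hc.exists_eq_range hne
    obtain ⟨α, hα⟩ := exists_bound e
    obtain ⟨a, hαa, ha⟩ := h1 α
    have ha' : a ∈ S := ha
    rw [he] at ha'
    obtain ⟨n, rfl⟩ := ha'
    exact absurd (hα n) (not_le.2 hαa)
  have h2 : ∀ a : S, ∃ r ≤ q, r ∈ meets (Z a.1) ∧ ∃ y, r ∈ meets (f a.1 y) := fun a => a.2
  choose r hr hrZ y hy using h2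
  have hcard : #(List ℕ) * ℵ₀ < #S := by
    have h3 : #(List ℕ) = ℵ₀ := by simp
    rw [h3, aleph0_mul_aleph0, ← not_le, le_aleph0_iff_set_countable]
    exact hS
  obtain ⟨a, a', hne, hs, u, hu, hu'⟩ := hP.exists_compat_same hcard r fun a => (y a).1
  refine ⟨u, hu.trans (hr a), ?_⟩
  refine mem_fex_of_mem a.1 (down_fex _) (mem_fex_of_mem a'.1 (down_fand (down_fground _)
    (down_fand (down_meets _) (down_fand (down_meets _) (down_fex _))))
    ⟨fun h => hne (Subtype.ext h), down_meets _ _ (hrZ a) _ hu, down_meets _ _ (hrZ a') _ hu', ?_⟩)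
  refine mem_fex_of_mem (y a) (down_fex _) (mem_fex_of_mem (y a') (down_fand (down_meets _)
    (down_fand (down_meets _) (down_fex _))) ⟨down_meets _ _ (hy a) _ hu,
    down_meets _ _ (hy a') _ hu', ?_⟩)
  refine mem_fex_of_mem (y a) (down_fand (down_meets _) (down_meets _))
    ⟨mem_cord.2 (List.prefix_refl _), mem_cord.2 ?_⟩
  rw [hs]

theorem cisDense {E : Y → ℕ → ℕ → Set P} {p : P} (hE : ∀ y, p ∈ IsFun (E y)) (i : CP Y) :
    p ∈ IsDenseN (cord : CP Y → CP Y → Set P) (cdn E i) := by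
  intro x
  rw [mem_fex]
  intro q hq
  -- first make the sequence long
  let t : List ℕ := x.1 ++ List.replicate i.1.length 0
  have ht : x.1 <+: t := List.prefix_append _ _
  have hlen : i.1.length ≤ t.length := by simp [t]
  rcases hi : i.2 with _ | y
  · refine ⟨q, le_rfl, (t, none), meets_of_mem ⟨hlen, fun y hy => ?_⟩, mem_cord.2 ht⟩
    rw [hi] at hy
    cases hy
  · obtain ⟨r, hr, m, hm⟩ := IsFun.total (down_IsFun _ _ (hE y) q hq) t.length
    refine ⟨r, hr, (t ++ [m + 1], none), meets_of_mem ⟨?_, fun y' hy' => ?_⟩,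
      mem_cord.2 (ht.trans (List.prefix_append _ _))⟩
    · show i.1.length ≤ (t ++ [m + 1]).length
      rw [List.length_append]
      omega
    · rw [hi] at hy'
      have hyy : y = y' := Option.some.inj hy'
      subst hyy
      refine ⟨t.length, by simp, m, ?_, hm⟩
      simp

/-- If `P` is ccc and forces Martin's axiom for all sets of size less than `κ`, then it forces
that the continuum is at least `κ`. -/
theorem not_continuumLe (hP : PCCC P) {κ : Cardinal.{0}} (hκ : ℵ₀ < κ)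
    (h : ∀ Y : Type, Infinite Y → #Y < κ → ∀ p : P, p ∈ MartinHolds P Y)
    {Y : Type} (hY : #Y < κ) (p : P) : p ∈ fnot (ContinuumLe P Y) := by
  intro q0 _ hq0
  obtain ⟨q, _, E, hE1, hE2⟩ := mem_fex.1 hq0 q0 le_rfl
  have hcard : #(CP Y) < κ := FMA.mk_prod_lt hκ.le (by simpa using hκ) (by
    rw [mk_option]
    exact add_lt_of_lt hκ.le hY (one_lt_aleph0.trans hκ))
  obtain ⟨r, hr, h1⟩ := mem_fimp.1 (h (CP Y) inferInstance hcard q cord (cdn E)) q le_rfl
    ⟨cisPre q, cisCCC hP q, fun i => cisDense hE1 i⟩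
  obtain ⟨r1, hr1, F, hF, hFD⟩ := mem_fex.1 h1 r le_rfl
  have hr1q : r1 ≤ q := hr1.trans hr
  -- the generic function
  let x : ℕ → ℕ → Set P := fun n m => {p | ∃ z : CP Y, z.1[n]? = some m ∧ p ∈ meets (F z)}
  have hdx : ∀ n m, Down (x n m) := by
    rintro n m p ⟨z, hz, h'⟩ q hq
    exact ⟨z, hz, down_meets _ _ h' _ hq⟩
  have hx : r1 ∈ IsFun x := by
    refine ⟨fun n => mem_fex.2 fun s hs => ?_, fun n m m' => mem_fimp.2 fun s hs hmm => ?_⟩
    · obtain ⟨s1, hs1, z, hz, hzD⟩ := mem_fex.1 (hFD (List.replicate (n + 1) 0, none)) s hs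
      obtain ⟨s2, hs2, hlen, _⟩ := exists_of_meets (down_cdn E _ z) hzD
      simp only [List.length_replicate] at hlen
      have hn : n < z.1.length := by omega
      exact ⟨s1, hs1, z.1[n], meets_of_mem ⟨z, List.getElem?_eq_getElem hn, hz⟩⟩
    · obtain ⟨s1, hs1, z, hz, hzF⟩ := exists_of_meets (hdx n m) hmm.1
      obtain ⟨s2, hs2, z', hz', hzF'⟩ := exists_of_meets (hdx n m')
        (down_meets _ _ hmm.2 _ hs1)
      obtain ⟨s3, hs3, h5⟩ := mem_fimp.1 (hF.2.2 z z') s2 (hs2.trans (hs1.trans hs))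
        ⟨down_meets _ _ hzF _ hs2, hzF'⟩
      obtain ⟨s4, hs4, w, _, hwz, hwz'⟩ := mem_fex.1 h5 s3 le_rfl
      refine ⟨s4, hs4.trans (hs3.trans (hs2.trans hs1)), ?_⟩
      have h6 := mem_cord.1 hwz
      have h7 := mem_cord.1 hwz'
      obtain ⟨t, ht⟩ := h6
      obtain ⟨t', ht'⟩ := h7
      have h8 : w.1[n]? = some m := by
        rw [← ht]
        obtain ⟨hn, _⟩ := List.getElem?_eq_some_iff.1 hz
        rw [List.getElem?_append_left hn]
        exact hz
      have h9 : w.1[n]? = some m' := by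
        rw [← ht']
        obtain ⟨hn, _⟩ := List.getElem?_eq_some_iff.1 hz'
        rw [List.getElem?_append_left hn]
        exact hz'
      rw [h8] at h9
      exact Option.some.inj h9
  obtain ⟨s, hs, h2⟩ := mem_fimp.1 (hE2 x) r1 hr1q hx
  obtain ⟨s1, hs1, y, h3⟩ := mem_fex.1 h2 s le_rfl
  obtain ⟨s2, hs2, z, hz, hzD⟩ := mem_fex.1 (hFD ([], some y)) s1 (hs1.trans hs)
  obtain ⟨s3, hs3, _, h4⟩ := exists_of_meets (down_cdn E _ z) hzD
  obtain ⟨n, hn, m, hm, hmE⟩ := h4 y rfl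
  have h5 : s3 ∈ meets (x n z.1[n]) :=
    meets_of_mem ⟨z, List.getElem?_eq_getElem hn, down_meets _ _ hz _ hs3⟩
  exact hm (FMA.sameReal_spec h3 s3 (hs3.trans hs2) n _ _ h5 hmE).symm

end Pool.Agent.H625.Tr
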