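import Pool.Agent.H625.Tr.Cov
import Pool.Agent.H625.Tr.NotLe
import Pool.Agent.H625.Cov.Card

/-!
# The forcing for a measurable cardinal
-/

set_option autoImplicit false

namespace Pool.Agent.H625.Tr

open Cardinal Pool.Agent.Helper669.Forcing
open Pool.Agent.W684.FM (PCCC MartinHolds exists_countable_name)
open Pool.Agent.H625.BCov (Nm)
open Pool.Agent.H625.FMA (Meas WT PP pccc)

variable {P : Type} [Preorder P]

/-- the number of regular sets of conditions -/
theorem mk_RO_le (hP : PCCC P) {κ : Cardinal.{0}} (hκ : ℵ₀ < κ)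
    (hpow : κ ^ (ℵ₀ : Cardinal.{0}) = κ) (hPK : #P ≤ κ) : #(RO P) ≤ κ := by
  classical
  have h1 : ∀ a : RO P, ∃ g : ℕ → Option P, meets {p | ∃ n, g n = some p} = a.s := by
    intro a
    obtain ⟨A, hA, hA'⟩ := exists_countable_name hP a.s
    rw [meets_RO] at hA'
    rcases A.eq_empty_or_nonempty with rfl | hne
    · refine ⟨fun _ => none, ?_⟩
      rw [← hA']
      congr 1
      ext p
      simp
    · obtain ⟨g, rfl⟩ := hA.exists_eq_range hne
      refine ⟨fun n => some (g n), ?_⟩
      rw [← hA']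
      congr 1
      ext p
      simp
  choose g hg using h1
  have hinj : Function.Injective g := by
    intro a b hab
    apply RO.ext'
    intro p
    have h2 : a.s = b.s := by rw [← hg a, ← hg b, hab]
    rw [RO.mem_def, RO.mem_def, h2]
  refine (mk_le_of_injective hinj).trans ?_
  have h3 : #(ℕ → Option P) = #(Option P) ^ (ℵ₀ : Cardinal.{0}) := by
    simp [mk_pi]
  rw [h3]
  refine (power_le_power_right ?_).trans hpow.le
  rw [mk_option]
  exact (add_le_add hPK (one_lt_aleph0.trans hκ).le).trans (add_eq_self hκ.le).le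

theorem mk_Nm_le (hP : PCCC P) {κ : Cardinal.{0}} (hκ : ℵ₀ < κ)
    (hpow : κ ^ (ℵ₀ : Cardinal.{0}) = κ) (hPK : #P ≤ κ) : #(Nm (RO P)) ≤ κ := by
  have h3 : #(Nm (RO P)) = #(RO P) ^ (ℵ₀ : Cardinal.{0}) := by
    simp [mk_pi]
  rw [h3]
  exact (power_le_power_right (mk_RO_le hP hκ hpow hPK)).trans hpow.le

theorem aleph_one_lt {κ : Cardinal.{0}} (hκ : ℵ₀ < κ)
    (hlim : ∀ μ < κ, (2 : Cardinal.{0}) ^ μ < κ) : (ℵ₁ : Cardinal.{0}) < κ := by
  refine lt_of_le_of_lt ?_ (hlim _ hκ)
  rw [← succ_aleph0]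
  exact Order.succ_le_of_lt (cantor _)

/-- A ccc forcing of size at most `κ` which forces Martin's axiom for all sets of size less than a
measurable cardinal `κ` forces that `ω*` can be covered by nowhere dense P-sets. -/
theorem covered_of_measurable (hP : PCCC P) {K : Type} {U : Ultrafilter K} (hU : Meas U)
    (hPK : #P ≤ #K) (h : ∀ Y : Type, Nonempty Y → #Y < #K → ∀ p : P, p ∈ MartinHolds P Y)
    (p : P) : p ∈ Pool.Agent.TH773.PSet.Covered P := by
  have hκ := hU.unc
  have hreg := hU.regLike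
  have hlim := hU.strongLimit
  have hpow := FMA.pow_aleph0 hκ hreg hlim
  have hPH : BCov.PHyp (RO P) #K := pHyp_of_martin hP hκ h
  have hDH : BCov.DHyp (RO P) #K := BCov.dHyp_of_pHyp hκ hPH
  obtain ⟨r, hr, hr'⟩ := Cov.exists_wo K
  have hNm : #(Nm (RO P)) ≤ #K := mk_Nm_le hP hκ hpow hPK
  obtain ⟨f, hf⟩ : ∃ f : K → Nm (RO P), Function.Surjective f := by
    obtain ⟨e⟩ := hNm
    exact ⟨Function.invFun e, Function.invFun_surjective e.injective⟩
  have hbig : ∀ γ, {δ | r γ δ} ∈ U := by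
    intro γ
    have h1 : #({δ | ¬ r γ δ} : Set K) < #K := by
      refine (mk_le_mk_of_subset (Cov.not_r_subset hr γ)).trans_lt ?_
      exact (mk_insert_le).trans_lt (add_lt_of_lt hκ.le (hr' γ) (one_lt_aleph0.trans hκ))
    have h2 := hU.small h1
    refine Filter.mem_of_superset h2 fun δ hδ => ?_
    by_contra hcon
    exact hδ hcon
  refine covered hP (fun u => ?_) p
  refine BCov.exists_tallP (K := K) (fun D h1 h2 => ccc_RO hP D h1 h2) (U := U)
    (fun ι g hι hg => hU.complete ι g (hι.trans_lt (aleph_one_lt hκ hlim)) hg) hκ hPH hDH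
    (fun δ => f '' {γ | r γ δ}) (fun δ => mk_image_le.trans_lt (hr' δ)) (fun a => ?_) u
  obtain ⟨γ, rfl⟩ := hf a
  exact Filter.mem_of_superset (hbig γ) fun δ hδ => ⟨γ, hδ, rfl⟩

/-- transport of a measure -/
theorem meas_map {K K' : Type} (e : K ≃ K') {U : Ultrafilter K} (hU : Meas U) :
    Meas (U.map e) where
  unc := by
    rw [← mk_congr e]
    exact hU.unc
  np x hx := by
    have h1 : e ⁻¹' {x} ∈ U := hx
    have h2 : e ⁻¹' {x} = {e.symm x} := by
      ext y
      simp only [Set.mem_preimage, Set.mem_singleton_iff]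
      exact e.eq_symm_apply.symm
    rw [h2] at h1
    exact hU.np _ h1
  complete ι f hι hf := by
    have h1 := hU.complete ι (fun i => e ⁻¹' f i) (by rwa [mk_congr e]) hf
    have h2 : e ⁻¹' (⋂ i, f i) ∈ U := by
      rw [Set.preimage_iInter]
      exact h1
    exact h2

/-- The conclusion for a measurable cardinal. -/
theorem exists_forcing {K : Type} {U : Ultrafilter K} (hU : Meas U) :
    ∃ (P : Type) (_ : Preorder P), Nonempty P ∧ PCCC P ∧ ∀ p : P,
      (∀ Y : Type, Infinite Y → #Y < #K → p ∈ MartinHolds P Y) ∧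
      p ∈ ContinuumIs P #K ∧ p ∈ CardinalsPreserved.{0, 0} P ∧
      p ∈ Pool.Agent.TH773.PSet.Covered P := by
  have hκ := hU.unc
  have hreg := hU.regLike
  have hlim := hU.strongLimit
  have hpow := FMA.pow_aleph0 hκ hreg hlim
  refine ⟨PP (WT #K), inferInstance, inferInstance, pccc, fun p => ?_⟩
  have hf := fun p => FMA.forces hκ hreg hlim p
  have hcard : #(PP (WT #K)) ≤ #K := by
    have := FMA.mk_PP_le (W := WT #K) (by rwa [FMA.mk_WT]) (by rwa [FMA.mk_WT])
      (by rwa [FMA.mk_WT]) fun α => by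
        rw [FMA.mk_WT]
        exact FMA.mk_Iio_WT α
    rwa [FMA.mk_WT] at this
  refine ⟨fun Y _ hY' => (hf p).1 Y inferInstance hY', ⟨?_, fun μ hμ => ?_⟩,
    pccc.cardinalsPreserved p, ?_⟩
  · exact FMA.continuumLe pccc (by rw [mk_out]; exact hκ.le) (by rw [mk_out]; exact hpow)
      (by rw [mk_out]; exact hcard) p
  · exact not_continuumLe pccc hκ (fun Y _ hY' p => (hf p).1 Y inferInstance hY')
      (by rwa [mk_out]) p
  · exact covered_of_measurable pccc hU hcard (fun Y hY hY' p => (hf p).1 Y hY hY') p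

end Pool.Agent.H625.Tr
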