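import Pool.Graph.R_seed8.W684.FM.Ambient

/-!
# The sentences of the forcing language for the trivial forcing
-/

set_option autoImplicit false

namespace Pool.Agent.H625.Tr

open Cardinal Pool.Agent.Helper669.Forcing Pool.Agent.W684.FM

universe v

theorem u_fnot {φ : Set Unit} : () ∈ fnot φ ↔ () ∉ φ :=
  ⟨fun h => h () le_rfl, fun h _ _ => h⟩

theorem u_fand {φ ψ : Set Unit} : () ∈ fand φ ψ ↔ () ∈ φ ∧ () ∈ ψ := Iff.rfl

theorem u_fimp {φ ψ : Set Unit} : () ∈ fimp φ ψ ↔ (() ∈ φ → () ∈ ψ) := by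
  unfold fimp
  rw [u_fnot, u_fand, u_fnot]
  tauto

theorem u_fall {ι : Sort v} {φ : ι → Set Unit} : () ∈ fall φ ↔ ∀ i, () ∈ φ i := Iff.rfl

theorem u_fex {ι : Sort v} {φ : ι → Set Unit} : () ∈ fex φ ↔ ∃ i, () ∈ φ i := by
  unfold fex
  rw [u_fnot, u_fall]
  simp only [u_fnot]
  push Not
  rfl

theorem u_meets {N : Set Unit} : () ∈ meets N ↔ () ∈ N := by
  constructor
  · intro h
    obtain ⟨_, _, _, hs, _⟩ := h () le_rfl
    exact hs
  · intro h q _
    exact ⟨(), le_rfl, (), h, le_rfl⟩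

theorem u_fground {h : Prop} : () ∈ fground (P := Unit) h ↔ h := Iff.rfl

/-- names for subsets in the trivial extension -/
theorem exists_name1 {X : Type} (Z : X → Prop) : ∃ N : X → Set Unit, ∀ x, () ∈ N x ↔ Z x :=
  ⟨fun x => {_u | Z x}, fun _ => Iff.rfl⟩

theorem martinHolds_unit {X : Type} (p : Unit) : p ∈ MartinHolds Unit X ↔ MartinFor X := by
  have key : ∀ (φ : (X → X → Set Unit) → Prop), (∀ R, φ R) ↔
      ∀ R : X → X → Prop, φ fun x y => {_u | R x y} := by
    intro φ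
    constructor
    · exact fun h R => h _
    · intro h R
      have := h fun x y => () ∈ R x y
      have hR : (fun x y => {_u : Unit | () ∈ R x y}) = R := by
        funext x y
        ext u
        rfl
      rwa [hR] at this
  have hccc : ∀ R : X → X → Prop, () ∈ CCCN (fun x y => {_u : Unit | R x y}) ↔ CCC R := by
    intro R
    unfold CCCN CCC UnbN IsFun CompatN
    simp only [u_fall, u_fimp, u_fand, u_fex, u_meets, u_fground]
    constructor
    · intro h Z f hZ
      obtain ⟨a, b, hab, ha, hb, x, y, hx, hy, z, h1, h2⟩ := h (fun a => {_u | Z a})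
        (fun a x => {_u | f a = x}) ⟨hZ, fun a => ⟨f a, rfl⟩, fun a x y hxy =>
          (show f a = x from hxy.1).symm.trans (show f a = y from hxy.2)⟩
      have hx' : f a = x := hx
      have hy' : f b = y := hy
      subst hx' hy'
      exact ⟨a, b, hab, ha, hb, z, h1, h2⟩
    · rintro h Z f ⟨hZ, hf1, hf2⟩
      choose g hg using hf1
      obtain ⟨a, b, hab, ha, hb, z, h1, h2⟩ := h (fun a => () ∈ Z a) g hZ
      exact ⟨a, b, hab, ha, hb, g a, g b, hg a, hg b, z, h1, h2⟩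
  have hF : ∀ R D : X → X → Prop, (∃ F : X → Set Unit,
      () ∈ fand (IsFilterN (fun x y => {_u : Unit | R x y}) F)
        (fall fun i => fex fun x => fand (meets (F x)) (meets {_u : Unit | D i x}))) ↔
      ∃ F : X → Prop, IsFilterIn R F ∧ ∀ i, ∃ x, F x ∧ D i x := by
    intro R D
    unfold IsFilterN IsFilterIn
    simp only [u_fall, u_fimp, u_fand, u_fex, u_meets]
    constructor
    · rintro ⟨F, ⟨h1, h2, h3⟩, h4⟩
      exact ⟨fun x => () ∈ F x, ⟨h1, fun x y hx hxy => h2 x y ⟨hx, hxy⟩,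
        fun x y hx hy => h3 x y ⟨hx, hy⟩⟩, h4⟩
    · rintro ⟨F, ⟨h1, h2, h3⟩, h4⟩
      exact ⟨fun x => {_u | F x}, ⟨h1, fun x y hx => h2 x y hx.1 hx.2,
        fun x y hx => h3 x y hx.1 hx.2⟩, h4⟩
  show () ∈ MartinHolds Unit X ↔ MartinFor X
  unfold MartinHolds
  rw [u_fall, key]
  refine forall_congr' fun R => ?_
  rw [u_fall, key]
  refine forall_congr' fun D => ?_
  rw [u_fimp, u_fand, u_fand, u_fex, hccc, hF]
  constructor
  · intro h h1 h2 h3
    refine h ⟨?_, h2, ?_⟩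
    · unfold IsPreN
      simp only [u_fall, u_fimp, u_fand, u_meets]
      exact ⟨h1.1, fun x y z hxy => h1.2 x y z hxy.1 hxy.2⟩
    · intro i
      unfold IsDenseN
      simp only [u_fall, u_fand, u_fex, u_meets]
      exact h3 i
  · rintro h ⟨h1, h2, h3⟩
    refine h ?_ h2 ?_
    · unfold IsPreN at h1
      simp only [u_fall, u_fimp, u_fand, u_meets] at h1
      exact ⟨h1.1, fun x y z hxy hyz => h1.2 x y z ⟨hxy, hyz⟩⟩
    · intro i
      have h4 := h3 i
      unfold IsDenseN at h4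
      simp only [u_fall, u_fand, u_fex, u_meets] at h4
      exact h4

theorem continuumLe_unit {Y : Type} :
    () ∈ ContinuumLe Unit Y ↔ (𝔠 : Cardinal.{0}) ≤ #Y := by
  have hcard : #(ℕ → ℕ) = (𝔠 : Cardinal.{0}) := by simp
  have h0 : () ∈ ContinuumLe Unit Y ↔ ∃ E : Y → ℕ → ℕ, Function.Surjective E := by
    unfold ContinuumLe IsFun SameReal
    simp only [u_fall, u_fimp, u_fand, u_fex, u_meets, u_fground]
    constructor
    · rintro ⟨E, h1, h2⟩
      choose g hg using fun y => (h1 y).1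
      refine ⟨g, fun x => ?_⟩
      obtain ⟨y, hy⟩ := h2 (fun n m => {_u | x n = m}) ⟨fun n => ⟨x n, rfl⟩, fun n a b hab =>
        (show x n = a from hab.1).symm.trans (show x n = b from hab.2)⟩
      refine ⟨y, ?_⟩
      funext n
      exact (hy n (x n) (g y n) ⟨rfl, hg y n⟩).symm
    · rintro ⟨E, hE⟩
      refine ⟨fun y n m => {_u | E y n = m}, fun y => ⟨fun n => ⟨E y n, rfl⟩, fun n a b hab =>
        (show E y n = a from hab.1).symm.trans (show E y n = b from hab.2)⟩, ?_⟩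
      rintro x ⟨hx1, hx2⟩
      choose g hg using hx1
      obtain ⟨y, hy⟩ := hE g
      refine ⟨y, fun n a b hab => ?_⟩
      have h3 : E y n = b := hab.2
      have h4 : g n = a := hx2 n _ _ ⟨hg n, hab.1⟩
      rw [← h3, ← h4, hy]
  rw [h0]
  constructor
  · rintro ⟨E, hE⟩
    rw [← hcard]
    exact mk_le_of_surjective hE
  · intro h
    rw [← hcard] at h
    obtain ⟨e⟩ := h
    exact ⟨Function.invFun e, Function.invFun_surjective e.injective⟩

theorem continuumIs_unit {κ : Cardinal.{0}} (p : Unit) :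
    p ∈ ContinuumIs Unit κ ↔ (𝔠 : Cardinal.{0}) = κ := by
  show () ∈ ContinuumIs Unit κ ↔ _
  unfold ContinuumIs
  simp only [u_fall, u_fand, u_fnot, continuumLe_unit, mk_out]
  constructor
  · rintro ⟨h1, h2⟩
    refine le_antisymm h1 ?_
    by_contra hcon
    exact h2 _ (not_le.1 hcon) le_rfl
  · rintro rfl
    exact ⟨le_rfl, fun μ hμ => not_le.2 hμ⟩

/-- Martin's axiom: for every nonempty preordered set `P` with the countable chain condition and
every family of fewer than `𝔠` dense subsets of `P` there is a filter in `P` which meets each of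
them. -/
def MartinsAxiom : Prop :=
  ∀ (P : Type) [Preorder P] [Nonempty P], Pool.Agent.W684.IsCCC P →
    ∀ 𝒟 : Set (Set P), #𝒟 < 𝔠 → (∀ D ∈ 𝒟, ∀ p : P, ∃ q ∈ D, q ≤ p) →
      ∃ G : Set P, G.Nonempty ∧ (∀ p ∈ G, ∀ q : P, p ≤ q → q ∈ G) ∧
        (∀ p ∈ G, ∀ q ∈ G, ∃ r ∈ G, r ≤ p ∧ r ≤ q) ∧ ∀ D ∈ 𝒟, (G ∩ D).Nonempty

theorem martinsAxiom_iff :
    MartinsAxiom ↔ ∀ Y : Type, Infinite Y → #Y < 𝔠 → MartinFor Y := by
  constructor
  · intro h Y hY hY'
    refine martinFor_of_martinAxiomCard ?_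
    intro P _ _ hP 𝒟 h𝒟 hD
    exact h P hP 𝒟 (h𝒟.trans_lt hY') hD
  · intro h P _ _ hP 𝒟 h𝒟 hD
    have h1 : max #𝒟 ℵ₀ < 𝔠 := max_lt h𝒟 aleph0_lt_continuum
    have h2 : Infinite (max #𝒟 ℵ₀).out := by
      rw [infinite_iff, mk_out]
      exact le_max_right _ _
    have h3 := martinAxiomCard_of_martinFor (h (max #𝒟 ℵ₀).out h2 (by rwa [mk_out]))
    exact h3 P hP 𝒟 (by
      rw [mk_out]
      exact le_max_left _ _) hD

end Pool.Agent.H625.Tr
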